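import Pool.Agent.X197.Ienv2

/-!
# MP_b3c6e2_an, Q1: yes, `Ienv (A ∪ B) = Ienv A ∪ Ienv B` whenever `A ∪ B` is convex

For a real or complex normed space `X` (completeness is not used) and subsets `A`, `B` of the dual
`X*` such that `A ∪ B` is convex (convexity of `A` and of `B` separately is not used), the
(I)-envelope of `A ∪ B` is the union of the (I)-envelopes of `A` and `B`.

Definitions (`Pool/Agent/X197/Ienv.lean`):
* `wHull A` is the weak* closure of the (real) convex hull of `A`;
* `Kset C` is the norm closure of the convex hull of `⋃ n, wHull (C n)`;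
* `Ienv A` is the intersection of `Kset C` over all sequences `C : ℕ → Set X*` with `⋃ n, C n = A`.

Proof.  `η ∉ Ienv A` iff there is a sequence `x n` in the unit ball and reals `t < s` with
`re η (x n) ≥ s` for all `n` and `re ξ (x n) ≤ t` eventually for every `ξ ∈ A` (a *witness*).
Let `x` be a witness for `A` and `y` one for `B`; put `f n ξ = re ξ (x n) - t`,
`g n ξ = re ξ (y n) - t'`.  By a diagonal argument we pass to a filter along which all the
statements `limsup (q f + (1 - q) g) ≤ 0` on `A` (respectively on `B`), `q` rational, are
hereditarily decided.  If for some `λ ∈ [0,1]` both hold then `λ x + (1 - λ) y` is a witness for `A ∪ B`.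
Otherwise, by connectedness of `[0,1]`, both fail hereditarily for some rational `q`, witnessed by
`ξ ∈ A` and `ζ ∈ B`; a two-dimensional argument gives `w n ∈ [0,1]` for which both `f n` and `g n`
are bounded below by a positive constant at `w n ξ + (1 - w n) ζ`, and a cluster point `w` of `w n`
gives an element `w ξ + (1 - w) ζ ∈ A ∪ B` at which both `f n` and `g n` are frequently positive,
a contradiction.
-/

set_option autoImplicit false

namespace Pool.Agent.Results.MP_b3c6e2_an.ConvexUnion

open Pool.Agent.X197.Ienv

/-- For every real or complex normed space `X` and all sets `A`, `B` in the dual space with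
`A ∪ B` convex, `Ienv (A ∪ B) = Ienv A ∪ Ienv B`. -/
theorem result {𝕜 : Type*} [RCLike 𝕜] {X : Type*} [NormedAddCommGroup X] [NormedSpace 𝕜 X]
    (A B : Set (StrongDual 𝕜 X)) (hAB : Convex ℝ (A ∪ B)) :
    Ienv (A ∪ B) = Ienv A ∪ Ienv B :=
  Ienv_union hAB

end Pool.Agent.Results.MP_b3c6e2_an.ConvexUnion
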